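import Pool.Agent.H98.RFT.Basic
import Pool.Agent.H7.RFC.ESI
import Pool.Agent.H35.RFC.MG
import Pool.Agent.H19.RFC.PS

/-!
Board `rft_modules` (`MP_057a7e_pr`), row ESV: the zero field Edwards–Sokal identity with a minus
set.
-/

set_option autoImplicit false

noncomputable section

open MeasureTheory ProbabilityTheory Filter Topology

namespace Pool.Agent.H7.RFT

open Pool.Agent.H98.RFC Pool.Agent.H98.RFZ Pool.Agent.H98.RFT Pool.Agent.H7.RFC.ESI

/-- marginals of the edge measure -/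
theorem bw_marg (P P' : Finset (Site × Site)) (hP : P' ⊆ P) (q : Site × Site → ℝ)
    (F : Finset (Site × Site) → ℝ) (hF : ∀ S ⊆ P', ∀ S' ⊆ P \ P', F (S ∪ S') = F S) :
    ∑ ω ∈ P.powerset, bw P q ω * F ω = ∑ ω ∈ P'.powerset, bw P' q ω * F ω := by
  classical
  have hdis : Disjoint P' (P \ P') := Finset.disjoint_sdiff
  have hu : P' ∪ (P \ P') = P := Finset.union_sdiff_of_subset hP
  conv_lhs => rw [← hu]
  rw [Pool.Agent.H19.RFC.pf_PS (Site × Site) P' (P \ P') hdis]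
  refine Finset.sum_congr rfl fun S hS => ?_
  have hS1 := Finset.mem_powerset.1 hS
  have h1 : ∀ S' ∈ (P \ P').powerset, bw (P' ∪ (P \ P')) q (S ∪ S') * F (S ∪ S') =
      (bw P' q S * F S) * bw (P \ P') q S' := by
    intro S' hS'
    have hS'1 := Finset.mem_powerset.1 hS'
    rw [Pool.Agent.H35.RFC.bw_union hdis q hS1 hS'1, hF S hS1 S' hS'1]
    ring
  rw [Finset.sum_congr rfl h1, ← Finset.mul_sum, Pool.Agent.H35.RFC.sum_bw, mul_one]

/-- along an open path -/
theorem path_iff {A : Set Site} {ω : Finset (Site × Site)} (hc : cmpt A ω) {k : ℕ}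
    {x : ℕ → Site} (hx : ∀ i, i < k → opn ω (x i) (x (i + 1))) :
    ∀ i, i ≤ k → (x 0 ∈ A ↔ x i ∈ A) := by
  intro i
  induction i with
  | zero => intro _; exact Iff.rfl
  | succ i ih =>
    intro hi
    exact (ih (by omega)).trans (opn_iff hc (hx i (by omega)))

theorem rtg_path {ω : Finset (Site × Site)} {a b : Site}
    (h : Relation.ReflTransGen (opn ω) a b) :
    ∃ (k : ℕ) (x : ℕ → Site), (∀ i, i < k → opn ω (x i) (x (i + 1))) ∧ x 0 = a ∧ x k = b := by
  induction h with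
  | refl => exact ⟨0, fun _ => a, fun i hi => absurd hi (Nat.not_lt_zero i), rfl, rfl⟩
  | @tail b c _ h2 ih =>
    obtain ⟨k, x, hx, h0, hk⟩ := ih
    refine ⟨k + 1, fun i => if i ≤ k then x i else c, ?_, ?_, ?_⟩
    · intro i hi
      rcases Nat.lt_succ_iff_lt_or_eq.1 hi with h3 | rfl
      · have h4 : i + 1 ≤ k := h3
        simp only [h3.le, h4, if_true]
        exact hx i h3
      · simp only [le_refl, if_true, show ¬ (i + 1 ≤ i) by omega, if_false, hk]
        exact h2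
    · simp [h0]
    · simp

open Classical in
/-- the sum over the spins for fixed edges -/
theorem inner (U W V : Finset Site) (P ω : Finset (Site × Site)) (hU : U ⊆ W)
    (hVW : Disjoint V W) (hP : ∀ e ∈ P, (e.1 ∈ U ∨ e.1 ∉ W) ∧ (e.2 ∈ U ∨ e.2 ∉ W))
    (hω : ω ⊆ P) :
    ∑ s ∈ U.powerset, (if cmpt (↑s ∪ (↑(W ∪ V))ᶜ) ω then (1 : ℝ) else 0) =
      ∑ s ∈ U.powerset, (if cmpt (↑s ∪ (↑W)ᶜ) ω then
        ind (¬ Cn V (W ∪ V) Set.univ ω) else 0) := by
  have hVn : ∀ y, y ∈ V → y ∉ W := fun y hy => Finset.disjoint_left.1 hVW hy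
  by_cases hcx : Cn V (W ∪ V) Set.univ ω
  · rw [ind_neg (not_not.2 hcx)]
    refine Finset.sum_congr rfl fun s hs => ?_
    rw [Finset.mem_powerset] at hs
    rw [ite_self]
    refine if_neg fun hc => ?_
    obtain ⟨k, x, ⟨-, hx⟩, h0, hk⟩ := hcx
    have h1 := path_iff hc hx k le_rfl
    have h2 : x k ∈ (↑s ∪ (↑(W ∪ V))ᶜ : Set Site) := Or.inr (by simpa using hk)
    rcases h1.2 h2 with h3 | h3
    · exact hVn _ h0 (hU (hs h3))
    · apply h3
      simp [h0]
  · rw [ind_pos hcx]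
    -- the component of `V`
    obtain ⟨K, hK⟩ : ∃ K : Finset Site,
        K = U.filter fun y => ∃ v ∈ V, Relation.ReflTransGen (opn ω) v y := ⟨_, rfl⟩
    have hKU : ∀ y, y ∈ K → y ∈ U := fun y hy => by
      rw [hK] at hy
      exact (Finset.mem_filter.1 hy).1
    have hreach : ∀ y, (y ∈ K ∨ y ∈ V) → ∃ v ∈ V, Relation.ReflTransGen (opn ω) v y := by
      intro y hy
      rcases hy with hy | hy
      · rw [hK] at hy
        exact (Finset.mem_filter.1 hy).2
      · exact ⟨y, hy, Relation.ReflTransGen.refl⟩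
    have hstep : ∀ a b, (a ∈ K ∨ a ∈ V) → opn ω a b → (b ∈ K ∨ b ∈ V) := by
      intro a b ha hab
      obtain ⟨v, hv, hva⟩ := hreach a ha
      have hb : Relation.ReflTransGen (opn ω) v b := hva.tail hab
      have hbL : b ∈ W ∪ V := by
        by_contra hb'
        obtain ⟨k, x, hx, h0, hk⟩ := rtg_path hb
        exact hcx ⟨k, x, ⟨fun i _ => Set.mem_univ _, hx⟩, by rw [h0]; exact hv,
          by rw [hk]; exact hb'⟩
      rcases Finset.mem_union.1 hbL with hbW | hbV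
      · left
        rw [hK, Finset.mem_filter]
        refine ⟨?_, v, hv, hb⟩
        rcases hab with h | h
        · rcases (hP _ (hω h)).2 with h' | h'
          · exact h'
          · exact absurd hbW h'
        · rcases (hP _ (hω h)).1 with h' | h'
          · exact h'
          · exact absurd hbW h'
      · exact Or.inr hbV
    have hedge : ∀ e ∈ ω, ((e.1 ∈ K ∨ e.1 ∈ V) ↔ (e.2 ∈ K ∨ e.2 ∈ V)) := by
      intro e he
      exact ⟨fun h => hstep _ _ h (Or.inl he), fun h => hstep _ _ h (Or.inr he)⟩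
    -- the flip
    have hflip : ∀ (s : Finset Site), s ⊆ U → ∀ (y : Site),
        (y ∈ (↑(symmDiff s K) ∪ (↑W)ᶜ : Set Site)) ↔
        ((y ∈ (↑s ∪ (↑(W ∪ V))ᶜ : Set Site)) ↔ ¬ (y ∈ K ∨ y ∈ V)) := by
      intro s hs y
      simp only [Set.mem_union, Finset.mem_coe, Set.mem_compl_iff, Finset.mem_symmDiff,
        Finset.coe_union]
      by_cases h1 : y ∈ K
      · have h2 : y ∈ W := hU (hKU y h1)
        tauto
      · by_cases h3 : y ∈ V
        · have h4 := hVn y h3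
          have h5 : y ∉ s := fun h6 => h4 (hU (hs h6))
          tauto
        · tauto
    have hcmp : ∀ s : Finset Site, s ⊆ U →
        (cmpt (↑(symmDiff s K) ∪ (↑W)ᶜ) ω ↔ cmpt (↑s ∪ (↑(W ∪ V))ᶜ) ω) := by
      intro s hs
      unfold cmpt
      refine forall₂_congr fun e he => ?_
      rw [hflip s hs e.1, hflip s hs e.2]
      have h1 := hedge e he
      by_cases h2 : (e.2 ∈ K ∨ e.2 ∈ V)
      · have h3 := h1.2 h2
        simp only [h2, h3, not_true_eq_false, iff_false]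
        exact not_iff_not
      · have h3 : ¬ (e.1 ∈ K ∨ e.1 ∈ V) := fun h => h2 (h1.1 h)
        simp only [h2, h3, not_false_eq_true, iff_true]
    have hsub : ∀ s ⊆ U, symmDiff s K ⊆ U := by
      intro s hs y hy
      rw [Finset.mem_symmDiff] at hy
      rcases hy with h | h
      · exact hs h.1
      · exact hKU y h.1
    refine Finset.sum_nbij' (fun s => symmDiff s K) (fun s => symmDiff s K) ?_ ?_ ?_ ?_ ?_
    · intro s hs
      exact Finset.mem_powerset.2 (hsub s (Finset.mem_powerset.1 hs))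
    · intro s hs
      exact Finset.mem_powerset.2 (hsub s (Finset.mem_powerset.1 hs))
    · intro s _
      exact symmDiff_symmDiff_cancel_right K s
    · intro s _
      exact symmDiff_symmDiff_cancel_right K s
    · intro s hs
      have h1 := hcmp s (Finset.mem_powerset.1 hs)
      by_cases hc : cmpt (↑s ∪ (↑(W ∪ V))ᶜ) ω
      · rw [if_pos hc, if_pos (h1.2 hc)]
      · rw [if_neg hc, if_neg fun h => hc (h1.1 h)]

open Classical in
/-- the sum over the edges for fixed spins -/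
theorem outer (A : Set Site) (V Λ : Finset Site) (P : Finset (Site × Site))
    (κ : Site × Site → ℝ) (hV : ∀ y ∈ V, y ∈ A) :
    ∑ ω ∈ P.powerset, ((∏ e ∈ ω, (Real.exp (κ e) - Real.exp (-κ e))) *
        ∏ e ∈ P \ ω, Real.exp (-κ e)) *
          (if cmpt A ω then ind (¬ Cn V Λ Set.univ ω) else 0) =
      (∑ ω ∈ P.powerset, bw P (fun e => Real.exp (-(2 * κ e))) ω * ind (¬ Cn V Λ A ω)) *
        ∏ e ∈ P, Real.exp (κ e * sg A e.1 * sg A e.2) := by
  obtain ⟨Pa, hPa⟩ : ∃ Pa : Finset (Site × Site), Pa = P.filter fun e => (e.1 ∈ A ↔ e.2 ∈ A) :=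
    ⟨_, rfl⟩
  have hsub : Pa ⊆ P := by rw [hPa]; exact Finset.filter_subset _ _
  have hmg := bw_marg P Pa hsub (fun e => Real.exp (-(2 * κ e)))
    (fun ω => ind (¬ Cn V Λ A ω)) (by
      intro S hS S' hS'
      have h0 : Cn V Λ A (S ∪ S') ↔ Cn V Λ A S := by
        constructor
        · rintro ⟨k, x, ⟨h1, h2⟩, h3⟩
          refine ⟨k, x, ⟨h1, fun i hi => ?_⟩, h3⟩
          have a1 := h1 i hi.le
          have a2 := h1 (i + 1) hi
          have key : ∀ e ∈ S', ¬ (e.1 ∈ A ∧ e.2 ∈ A) := by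
            rintro e he ⟨b1, b2⟩
            have h6 := Finset.mem_sdiff.1 (hS' he)
            apply h6.2
            rw [hPa, Finset.mem_filter]
            exact ⟨h6.1, by tauto⟩
          rcases h2 i hi with h4 | h4
          · rcases Finset.mem_union.1 h4 with h5 | h5
            · exact Or.inl h5
            · exact absurd ⟨a1, a2⟩ (key _ h5)
          · rcases Finset.mem_union.1 h4 with h5 | h5
            · exact Or.inr h5
            · exact absurd ⟨a2, a1⟩ (key _ h5)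
        · rintro ⟨k, x, ⟨h1, h2⟩, h3⟩
          refine ⟨k, x, ⟨h1, fun i hi => ?_⟩, h3⟩
          rcases h2 i hi with h4 | h4
          · exact Or.inl (Finset.mem_union_left _ h4)
          · exact Or.inr (Finset.mem_union_left _ h4)
      change ind (¬ Cn V Λ A (S ∪ S')) = ind (¬ Cn V Λ A S)
      rw [h0])
  rw [hmg]
  have hmem : ∀ ω, ω ⊆ P → (cmpt A ω ↔ ω ⊆ Pa) := by
    intro ω hω
    constructor
    · intro hc e he
      rw [hPa, Finset.mem_filter]
      exact ⟨hω he, hc e he⟩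
    · intro hs e he
      have h1 := hs he
      rw [hPa, Finset.mem_filter] at h1
      exact h1.2
  have hw : ∏ e ∈ P, Real.exp (κ e * sg A e.1 * sg A e.2) =
      (∏ e ∈ Pa, Real.exp (κ e)) * ∏ e ∈ P \ Pa, Real.exp (-κ e) := by
    rw [← Finset.prod_sdiff hsub, mul_comm]
    congr 1
    · refine Finset.prod_congr rfl fun e he => ?_
      rw [hPa, Finset.mem_filter] at he
      rw [wexp, if_pos he.2]
      ring
    · refine Finset.prod_congr rfl fun e he => ?_
      rw [hPa, Finset.mem_sdiff, Finset.mem_filter] at he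
      rw [wexp, if_neg (fun h => he.2 ⟨he.1, h⟩), zero_add]
  have hL : ∑ ω ∈ P.powerset, ((∏ e ∈ ω, (Real.exp (κ e) - Real.exp (-κ e))) *
        ∏ e ∈ P \ ω, Real.exp (-κ e)) *
          (if cmpt A ω then ind (¬ Cn V Λ Set.univ ω) else 0) =
      ∑ ω ∈ Pa.powerset, ((∏ e ∈ ω, (Real.exp (κ e) - Real.exp (-κ e))) *
        ∏ e ∈ P \ ω, Real.exp (-κ e)) * ind (¬ Cn V Λ Set.univ ω) := by
    symm
    refine Finset.sum_subset_zero_on_sdiff (Finset.powerset_mono.2 hsub) ?_ ?_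
    · intro ω hω
      rw [Finset.mem_sdiff, Finset.mem_powerset, Finset.mem_powerset] at hω
      rw [if_neg (fun h => hω.2 ((hmem ω hω.1).1 h)), mul_zero]
    · intro ω hω
      rw [Finset.mem_powerset] at hω
      rw [if_pos ((hmem ω (hω.trans hsub)).2 hω)]
  rw [hL, hw, Finset.sum_mul]
  refine Finset.sum_congr rfl fun ω hω => ?_
  rw [Finset.mem_powerset] at hω
  have hc : cmpt A ω := (hmem ω (hω.trans hsub)).2 hω
  have hconn : Cn V Λ Set.univ ω ↔ Cn V Λ A ω := by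
    constructor
    · rintro ⟨k, x, ⟨-, h2⟩, h3, h4⟩
      refine ⟨k, x, ⟨fun i hi => ?_, h2⟩, h3, h4⟩
      exact (path_iff hc h2 i hi).1 (hV _ h3)
    · rintro ⟨k, x, ⟨-, h2⟩, h3⟩
      exact ⟨k, x, ⟨fun i _ => Set.mem_univ _, h2⟩, h3⟩
  rw [hconn]
  have hsd : P \ ω = (Pa \ ω) ∪ (P \ Pa) := by
    ext e
    simp only [Finset.mem_sdiff, Finset.mem_union]
    constructor
    · rintro ⟨h1, h2⟩
      by_cases h3 : e ∈ Pa
      · exact Or.inl ⟨h3, h2⟩
      · exact Or.inr ⟨h1, h3⟩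
    · rintro (⟨h1, h2⟩ | ⟨h1, h2⟩)
      · exact ⟨hsub h1, h2⟩
      · exact ⟨h1, fun h => h2 (hω h)⟩
  have hdis : Disjoint (Pa \ ω) (P \ Pa) := by
    rw [Finset.disjoint_left]
    intro e h1 h2
    exact (Finset.mem_sdiff.1 h2).2 (Finset.mem_sdiff.1 h1).1
  rw [hsd, Finset.prod_union hdis]
  unfold bw
  have e1 : ∏ e ∈ ω, (Real.exp (κ e) - Real.exp (-κ e)) =
      (∏ e ∈ ω, Real.exp (κ e)) * ∏ e ∈ ω, (1 - Real.exp (-(2 * κ e))) := by
    rw [← Finset.prod_mul_distrib]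
    refine Finset.prod_congr rfl fun e _ => ?_
    rw [mul_sub, mul_one, ← Real.exp_add]
    congr 2
    ring
  have e2 : ∏ e ∈ Pa \ ω, Real.exp (-κ e) =
      (∏ e ∈ Pa \ ω, Real.exp (κ e)) * ∏ e ∈ Pa \ ω, Real.exp (-(2 * κ e)) := by
    rw [← Finset.prod_mul_distrib]
    refine Finset.prod_congr rfl fun e _ => ?_
    rw [← Real.exp_add]
    congr 1
    ring
  have e3 : ∏ e ∈ Pa, Real.exp (κ e) =
      (∏ e ∈ Pa \ ω, Real.exp (κ e)) * ∏ e ∈ ω, Real.exp (κ e) :=
    (Finset.prod_sdiff hω).symm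
  rw [e1, e2, e3]
  ring

/-- ESV -/
theorem pf_ESV : D_ESV := by
  classical
  intro U W V P κ hU hVW hP
  have hexp : ∀ s : Finset Site,
      ∏ e ∈ P, Real.exp (κ e * sg (↑s ∪ (↑(W ∪ V))ᶜ) e.1 * sg (↑s ∪ (↑(W ∪ V))ᶜ) e.2) =
      ∑ ω ∈ P.powerset, ((∏ e ∈ ω, (Real.exp (κ e) - Real.exp (-κ e))) *
        ∏ e ∈ P \ ω, Real.exp (-κ e)) *
          (if cmpt (↑s ∪ (↑(W ∪ V))ᶜ) ω then (1 : ℝ) else 0) := by
    intro s
    rw [Finset.prod_congr rfl fun e _ => wexp (↑s ∪ (↑(W ∪ V))ᶜ) (κ e) e, Finset.prod_add]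
    refine Finset.sum_congr rfl fun ω _ => ?_
    rw [prod_ite0]
    by_cases hc : cmpt (↑s ∪ (↑(W ∪ V))ᶜ) ω
    · rw [if_pos hc, if_pos hc]
      ring
    · rw [if_neg hc, if_neg hc]
      ring
  rw [Finset.sum_congr rfl fun s _ => hexp s, Finset.sum_comm]
  have hin : ∀ ω ∈ P.powerset, ∑ s ∈ U.powerset,
      ((∏ e ∈ ω, (Real.exp (κ e) - Real.exp (-κ e))) * ∏ e ∈ P \ ω, Real.exp (-κ e)) *
          (if cmpt (↑s ∪ (↑(W ∪ V))ᶜ) ω then (1 : ℝ) else 0) =
      ∑ s ∈ U.powerset,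
      ((∏ e ∈ ω, (Real.exp (κ e) - Real.exp (-κ e))) * ∏ e ∈ P \ ω, Real.exp (-κ e)) *
          (if cmpt (↑s ∪ (↑W)ᶜ) ω then ind (¬ Cn V (W ∪ V) Set.univ ω) else 0) := by
    intro ω hω
    rw [← Finset.mul_sum, ← Finset.mul_sum,
      inner U W V P ω hU hVW hP (Finset.mem_powerset.1 hω)]
  rw [Finset.sum_congr rfl hin, Finset.sum_comm]
  refine Finset.sum_congr rfl fun s _ => outer (↑s ∪ (↑W)ᶜ) V (W ∪ V) P κ fun y hy => ?_
  exact Or.inr (fun h => Finset.disjoint_left.1 hVW hy h)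

end Pool.Agent.H7.RFT
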